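import Mathlib
import Pool.Agent.H48.McL

set_option autoImplicit false

namespace Pool.Agent.Results.MP_f6f6d4_al.Yes

/-- The diagonal subgroup `δ(T)` of `T^(m+1)`. -/
def diag (T : Type) [Group T] (m : ℕ) : Subgroup (Fin (m + 1) → T) where
  carrier := {x | ∃ t : T, x = fun _ => t}
  one_mem' := ⟨1, rfl⟩
  mul_mem' := by
    rintro _ _ ⟨s, rfl⟩ ⟨t, rfl⟩
    exact ⟨s * t, rfl⟩
  inv_mem' := by
    rintro _ ⟨s, rfl⟩
    exact ⟨s⁻¹, rfl⟩

/-- The set `Ω` of right cosets `δ(T) x`. -/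
def Omega (T : Type) [Group T] (m : ℕ) : Type := Quotient (QuotientGroup.rightRel (diag T m))

/-- The coset `δ(T) x`. -/
def cos {T : Type} [Group T] {m : ℕ} (x : Fin (m + 1) → T) : Omega T m := Quotient.mk _ x

/-- The diagonal group `D(T, m)`. -/
def D (T : Type) [Group T] (m : ℕ) : Subgroup (Equiv.Perm (Omega T m)) :=
  Subgroup.closure {f | (∃ y : Fin (m + 1) → T, ∀ x, f (cos x) = cos (x * y)) ∨
    (∃ α : MulAut T, ∀ x, f (cos x) = cos (fun i => α (x i))) ∨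
    (∃ σ : Equiv.Perm (Fin (m + 1)), ∀ x, f (cos x) = cos (fun i => x (σ i)))}

/-- The partition `Q_J` of `Δ^n`, carried to `Ω` by `e`, as an equivalence relation. -/
def Q {Ω Δ : Type} {n : ℕ} (e : Ω ≃ (Fin n → Δ)) (J : Set (Fin n)) (u v : Ω) : Prop :=
  ∀ i, i ∉ J → e u i = e v i

/-- `G` preserves a Cartesian lattice. -/
def PreservesCartesian {Ω : Type} (G : Subgroup (Equiv.Perm Ω)) : Prop :=
  ∃ (Δ : Type) (n : ℕ) (e : Ω ≃ (Fin n → Δ)), Nontrivial Δ ∧ 2 ≤ n ∧ ∀ g ∈ G,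
    (∀ J, ∃ J', ∀ u v, Q e J u v ↔ Q e J' (g u) (g v)) ∧
    (∀ J', ∃ J, ∀ u v, Q e J u v ↔ Q e J' (g u) (g v))

open Pool.Agent.H48.McL

theorem nontriv : (t 0 1 one_pos) * t 1 2 one_lt_two ≠ t 1 2 one_lt_two * t 0 1 one_pos := by
  intro h
  have := t_comm (one_pos : (0 : ℚ) < 1) one_lt_two
  rw [h] at this
  exact t_ne _ _ _ (by rw [← this]; group)

theorem exists_not_comm {g : M} (hg : g ≠ 1) : ∃ k : M, k * g ≠ g * k := by
  by_contra hc
  push Not at hc
  have : g ∈ Subgroup.center M := Subgroup.mem_center_iff.mpr hc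
  rw [center_bot] at this
  exact hg this

theorem char_simple (H : Subgroup (M × M)) (hH : H.Characteristic) : H = ⊥ ∨ H = ⊤ := by
  by_cases h0 : H = ⊥
  · exact Or.inl h0
  right
  have hA : ∀ (φ : M × M ≃* M × M), ∀ x ∈ H, φ x ∈ H := fun φ x hx =>
    (Subgroup.characteristic_iff_le_comap.mp hH φ) hx
  obtain ⟨g, h, hgh, hg⟩ : ∃ g h : M, (g, h) ∈ H ∧ g ≠ 1 := by
    obtain ⟨⟨⟨g, h⟩, hx⟩, hx1⟩ := Subgroup.ne_bot_iff_exists_ne_one.mp h0
    by_cases hg : g = 1
    · refine ⟨h, g, hA MulEquiv.prodComm _ hx, fun hh => hx1 (Subtype.ext ?_)⟩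
      simp [hg, hh]
    · exact ⟨g, h, hx, hg⟩
  have hn : H.Normal := inferInstance
  set N := H.comap (MonoidHom.inl M M) with hN
  have hNn : N.Normal := hn.comap _
  have hN0 : N ≠ ⊥ := by
    obtain ⟨k, hk⟩ := exists_not_comm hg
    have h1 : (k * g * k⁻¹ * g⁻¹) ∈ N := by
      have := H.mul_mem (hn.conj_mem _ hgh (k, 1)) (H.inv_mem hgh)
      simpa [hN] using this
    intro e
    rw [e, Subgroup.mem_bot] at h1
    exact hk (by rw [← mul_inv_eq_one, ← h1]; group)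
  obtain ⟨a0, b0, hab⟩ := normal_has hNn hN0
  have h1 : min a0 b0 - 1 < max a0 b0 + 1 := by linarith [min_le_max (a := a0) (b := b0)]
  have h2 := hab _ _ h1 (by linarith [min_le_left a0 b0]) (by linarith [le_max_right a0 b0])
  have h3 : N = ⊤ := eq_top fun i j hij => by
    obtain ⟨α, hα⟩ := aut_trans h1 hij
    have : (α (t _ _ h1), (1 : M)) ∈ H := hA (α.prodCongr (MulEquiv.refl M)) _ h2
    rw [hα] at this
    exact this
  have h4 : ∀ x : M, (x, 1) ∈ H := fun x => by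
    have : x ∈ N := by rw [h3]; trivial
    exact this
  rw [eq_top_iff]
  rintro ⟨x, y⟩ -
  have := H.mul_mem (h4 x) (hA MulEquiv.prodComm _ (h4 y))
  simpa using this

theorem not_fcr (S : Type) [Group S] [IsSimpleGroup S] (hS : ∃ a b : S, a * b ≠ b * a) (k : ℕ)
    (φ : M × M ≃* (Fin k → S)) : False := by
  set x : M × M := (t 0 1 one_pos, 1) with hx
  have hx1 : φ x ≠ 1 := by
    intro e
    have := φ.injective (e.trans (map_one φ).symm)
    exact t_ne _ _ _ (congrArg Prod.fst this)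
  obtain ⟨i, hi⟩ := Function.ne_iff.mp hx1
  have hc : ∀ s : S, φ x i * (s * φ x i * s⁻¹) = (s * φ x i * s⁻¹) * φ x i := by
    intro s
    obtain ⟨g, hg⟩ := φ.surjective (fun _ => s)
    have h1 : x * (g * x * g⁻¹) = (g * x * g⁻¹) * x :=
      Prod.ext (conj_comm 0 1 one_pos g.1) (by simp [hx])
    have h2 := congrFun (congrArg φ h1) i
    simpa [hg] using h2
  have h1 : Subgroup.normalClosure {φ x i} ≤ Subgroup.centralizer {φ x i} := by
    rw [Subgroup.normalClosure, Subgroup.closure_le]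
    intro y hy
    obtain ⟨a, ha, hy⟩ := Group.mem_conjugatesOfSet_iff.mp hy
    rw [Set.mem_singleton_iff.mp ha] at hy
    obtain ⟨s, rfl⟩ := isConj_iff.mp hy
    rw [SetLike.mem_coe, Subgroup.mem_centralizer_singleton_iff]
    exact (hc s).symm
  rcases (Subgroup.normalClosure_normal (s := {φ x i})).eq_bot_or_eq_top with h | h
  · exact hi (Subgroup.mem_bot.mp (h ▸ Subgroup.subset_normalClosure (Set.mem_singleton _)))
  · have h2 : φ x i ∈ Subgroup.center S := by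
      rw [Subgroup.mem_center_iff]
      intro g
      exact Subgroup.mem_centralizer_singleton_iff.mp (h1 (h ▸ Subgroup.mem_top g))
    rcases (inferInstance : (Subgroup.center S).Normal).eq_bot_or_eq_top with h3 | h3
    · exact hi (Subgroup.mem_bot.mp (h3 ▸ h2))
    · obtain ⟨a, b, hab⟩ := hS
      exact hab (Subgroup.mem_center_iff.mp (h3 ▸ Subgroup.mem_top b) a)

theorem proj_triv (f : M × M →* M) (hf : Function.Surjective f) :
    (∀ x, f (x, 1) = 1) ∨ ∀ y, f (1, y) = 1 := by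
  by_contra hc
  push Not at hc
  obtain ⟨⟨x, hx⟩, ⟨y, hy⟩⟩ := hc
  have n1 : ((MonoidHom.snd M M).ker.map f).Normal := Subgroup.Normal.map inferInstance f hf
  have n2 : ((MonoidHom.fst M M).ker.map f).Normal := Subgroup.Normal.map inferInstance f hf
  obtain ⟨z, hz, ⟨⟨p, p'⟩, hp, e1⟩, ⟨⟨q', q⟩, hq, e2⟩⟩ := inter n1 n2
    (fun e => hx (Subgroup.mem_bot.mp (e ▸ ⟨(x, 1), rfl, rfl⟩)))
    (fun e => hy (Subgroup.mem_bot.mp (e ▸ ⟨(1, y), rfl, rfl⟩)))
  have hp' : p' = 1 := hp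
  have hq' : q' = 1 := hq
  subst hp' hq'
  obtain ⟨k, hk⟩ := exists_not_comm hz
  obtain ⟨⟨a, b⟩, rfl⟩ := hf k
  apply hk
  have e3 : f (a, b) = f (a, 1) * f (1, b) := by rw [← map_mul]; simp
  have c1 : f (a, 1) * z = z * f (a, 1) := by rw [← e2, ← map_mul, ← map_mul]; simp
  have c2 : f (1, b) * z = z * f (1, b) := by rw [← e1, ← map_mul, ← map_mul]; simp
  rw [e3, mul_assoc, c2, ← mul_assoc, c1, mul_assoc]

/-- The two projections. -/
noncomputable def pr (r : Fin 2) : M × M →* M := if r = 0 then MonoidHom.fst M M else MonoidHom.snd M M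

theorem aut_ker (α : MulAut (M × M)) : ∃ τ : Equiv.Perm (Fin 2), ∀ r z,
    pr r z = 1 ↔ pr (τ r) (α z) = 1 := by
  have s1 : Function.Surjective ((MonoidHom.fst M M).comp α.toMonoidHom) :=
    Prod.fst_surjective.comp α.surjective
  have s2 : Function.Surjective ((MonoidHom.snd M M).comp α.toMonoidHom) :=
    Prod.snd_surjective.comp α.surjective
  have ne := t_ne 0 1 one_pos
  have one : ∀ z, (α z).1 = 1 → (α z).2 = 1 → z = 1 := fun z h1 h2 =>
    α.injective (by rw [map_one]; exact Prod.ext h1 h2)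
  have sp : ∀ x y, α (x, y) = α (x, 1) * α (1, y) := fun x y => by rw [← map_mul]; simp
  rcases proj_triv _ s1 with h1 | h1 <;> rcases proj_triv _ s2 with h2 | h2
  · exact absurd (congrArg Prod.fst (one _ (h1 _) (h2 _))) ne
  · refine ⟨Equiv.swap 0 1, fun r ⟨x, y⟩ => ?_⟩
    have e1 : (α (x, y)).1 = (α (1, y)).1 := by
      rw [sp, Prod.fst_mul, show (α (x, 1)).1 = 1 from h1 x, one_mul]
    have e2 : (α (x, y)).2 = (α (x, 1)).2 := by
      rw [sp, Prod.snd_mul, show (α (1, y)).2 = 1 from h2 y, mul_one]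
    fin_cases r
    · change x = 1 ↔ (α (x, y)).2 = 1
      rw [e2]
      exact ⟨fun h => by rw [h]; exact h2 1, fun h => congrArg Prod.fst (one _ (h1 x) h)⟩
    · change y = 1 ↔ (α (x, y)).1 = 1
      rw [e1]
      exact ⟨fun h => by rw [h]; exact h1 1, fun h => congrArg Prod.snd (one _ h (h2 y))⟩
  · refine ⟨1, fun r ⟨x, y⟩ => ?_⟩
    have e1 : (α (x, y)).1 = (α (x, 1)).1 := by
      rw [sp, Prod.fst_mul, show (α (1, y)).1 = 1 from h1 y, mul_one]
    have e2 : (α (x, y)).2 = (α (1, y)).2 := by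
      rw [sp, Prod.snd_mul, show (α (x, 1)).2 = 1 from h2 x, one_mul]
    fin_cases r
    · change x = 1 ↔ (α (x, y)).1 = 1
      rw [e1]
      exact ⟨fun h => by rw [h]; exact h1 1, fun h => congrArg Prod.fst (one _ h (h2 x))⟩
    · change y = 1 ↔ (α (x, y)).2 = 1
      rw [e2]
      exact ⟨fun h => by rw [h]; exact h2 1, fun h => congrArg Prod.snd (one _ (h1 y) h)⟩
  · exact absurd (congrArg Prod.snd (one _ (h1 _) (h2 _))) ne

theorem cos_eq {m : ℕ} {x y : Fin (m + 1) → M × M} :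
    cos x = cos y ↔ ∃ s, ∀ i, y i = s * x i := by
  refine (Quotient.eq.trans QuotientGroup.rightRel_apply).trans ?_
  constructor
  · rintro ⟨s, hs⟩
    exact ⟨s, fun i => by rw [← congrFun hs i]; simp⟩
  · rintro ⟨s, hs⟩
    exact ⟨s, funext fun i => by simp [hs i]⟩

/-- Coordinates on `Ω`. -/
noncomputable def ee (m : ℕ) : Omega (M × M) m ≃ (Fin 2 → Fin m → M) where
  toFun := Quotient.lift (fun x r i => pr r ((x 0)⁻¹ * x i.succ)) (by
    intro x y h
    obtain ⟨s, hs⟩ := cos_eq.mp (Quotient.sound h)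
    funext r i
    rw [hs, hs]
    congr 1
    group)
  invFun w := cos (Fin.cons 1 fun i => (w 0 i, w 1 i))
  left_inv := by
    rintro ⟨x⟩
    refine cos_eq.mpr ⟨x 0, fun i => ?_⟩
    refine Fin.cases (by simp) (fun j => ?_) i
    change x j.succ = x 0 * ((x 0)⁻¹ * x j.succ)
    group
  right_inv w := by
    funext r i
    change pr r (1⁻¹ * (w 0 i, w 1 i)) = _
    rw [inv_one, one_mul]
    fin_cases r <;> rfl

theorem ee_eq {m : ℕ} (x y : Fin (m + 1) → M × M) (r : Fin 2) :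
    ee m (cos x) r = ee m (cos y) r ↔ ∀ i j, pr r ((y i * (x i)⁻¹)⁻¹ * (y j * (x j)⁻¹)) = 1 := by
  change (fun i : Fin m => pr r ((x 0)⁻¹ * x i.succ)) = (fun i => pr r ((y 0)⁻¹ * y i.succ)) ↔ _
  simp only [map_mul, map_inv, inv_mul_eq_one]
  constructor
  · intro h
    have h1 : ∀ i, pr r (y i) * (pr r (x i))⁻¹ = pr r (y 0) * (pr r (x 0))⁻¹ := by
      intro i
      refine Fin.cases rfl (fun j => ?_) i
      have := congrFun h j
      rw [show pr r (y j.succ) = pr r (y 0) * ((pr r (x 0))⁻¹ * pr r (x j.succ)) by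
        rw [this]; group]
      group
    intro i j
    rw [h1 i, h1 j]
  · intro h
    funext i
    have := h 0 i.succ
    rw [show pr r (y i.succ) = pr r (y 0) * (pr r (x 0))⁻¹ * pr r (x i.succ) by
      rw [this]; group]
    group

theorem perm_coord {m : ℕ} (g : Equiv.Perm (Omega (M × M) m)) (hg : g ∈ D (M × M) m) :
    ∃ τ : Equiv.Perm (Fin 2), ∀ r u v,
      ee m u r = ee m v r ↔ ee m (g u) (τ r) = ee m (g v) (τ r) := by
  induction hg using Subgroup.closure_induction with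
  | mem f hf =>
    rcases hf with ⟨y, hy⟩ | ⟨α, hα⟩ | ⟨σ, hσ⟩
    · refine ⟨1, ?_⟩
      rintro r ⟨u⟩ ⟨v⟩
      change ee m (cos u) r = ee m (cos v) r ↔ ee m (f (cos u)) r = ee m (f (cos v)) r
      rw [hy, hy, ee_eq, ee_eq]
      simp
    · obtain ⟨τ, hτ⟩ := aut_ker α
      refine ⟨τ, ?_⟩
      rintro r ⟨u⟩ ⟨v⟩
      change ee m (cos u) r = ee m (cos v) r ↔ ee m (f (cos u)) (τ r) = ee m (f (cos v)) (τ r)
      rw [hα, hα, ee_eq, ee_eq]
      refine forall₂_congr fun i j => (hτ r _).trans ?_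
      simp only [map_mul, map_inv]
    · refine ⟨1, ?_⟩
      rintro r ⟨u⟩ ⟨v⟩
      change ee m (cos u) r = ee m (cos v) r ↔ ee m (f (cos u)) r = ee m (f (cos v)) r
      rw [hσ, hσ, ee_eq, ee_eq]
      exact ⟨fun h i j => h _ _, fun h i j => by simpa using h (σ.symm i) (σ.symm j)⟩
  | one => exact ⟨1, fun _ _ _ => Iff.rfl⟩
  | mul f g _ _ hf hg =>
    obtain ⟨τ, hτ⟩ := hf
    obtain ⟨ρ, hρ⟩ := hg
    exact ⟨τ * ρ, fun r u v => (hρ r u v).trans (hτ _ _ _)⟩
  | inv f _ hf =>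
    obtain ⟨τ, hτ⟩ := hf
    refine ⟨τ⁻¹, fun r u v => ?_⟩
    have := hτ (τ⁻¹ r) (f⁻¹ u) (f⁻¹ v)
    simpa using this.symm

theorem result : ∃ (T : Type) (_ : Group T), (∃ a b : T, a * b ≠ b * a) ∧
    (∀ H : Subgroup T, H.Characteristic → H = ⊥ ∨ H = ⊤) ∧ ¬ IsSimpleGroup T ∧
    (¬ ∃ (S : Type) (_ : Group S) (k : ℕ), IsSimpleGroup S ∧ (∃ a b : S, a * b ≠ b * a) ∧
      1 ≤ k ∧ Nonempty (T ≃* (Fin k → S))) ∧
    ∀ m : ℕ, 1 < m → PreservesCartesian (D T m) := by
  refine ⟨M × M, inferInstance, ⟨(t 0 1 one_pos, 1), (t 1 2 one_lt_two, 1),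
    fun h => nontriv (congrArg Prod.fst h)⟩, char_simple, ?_, ?_, ?_⟩
  · intro h
    have ne := t_ne 0 1 one_pos
    rcases (inferInstance : (MonoidHom.fst M M).ker.Normal).eq_bot_or_eq_top with h1 | h1
    · have : ((1 : M), t 0 1 one_pos) ∈ (MonoidHom.fst M M).ker := rfl
      rw [h1] at this
      exact ne (congrArg Prod.snd (Subgroup.mem_bot.mp this))
    · have : (t 0 1 one_pos, (1 : M)) ∈ (MonoidHom.fst M M).ker := by rw [h1]; trivial
      exact ne this
  · rintro ⟨S, _, k, h1, h2, -, ⟨φ⟩⟩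
    exact not_fcr S h2 k φ
  · intro m hm
    have : Nontrivial M := ⟨_, _, t_ne 0 1 one_pos⟩
    have : Nonempty (Fin m) := ⟨⟨0, by omega⟩⟩
    refine ⟨Fin m → M, 2, ee m, inferInstance, le_rfl, fun g hg => ?_⟩
    obtain ⟨τ, hτ⟩ := perm_coord g hg
    have key : ∀ (J' : Set (Fin 2)) u v, Q (ee m) (τ ⁻¹' J') u v ↔ Q (ee m) J' (g u) (g v) := by
      intro J' u v
      constructor
      · intro h i hi
        have := (hτ (τ.symm i) u v).mp (h _ (by simpa using hi))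
        simpa using this
      · intro h i hi
        exact (hτ i u v).mpr (h _ hi)
    refine ⟨fun J => ⟨τ '' J, fun u v => ?_⟩, fun J' => ⟨_, key J'⟩⟩
    rw [← key, Set.preimage_image_eq _ τ.injective]

end Pool.Agent.Results.MP_f6f6d4_al.Yes
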